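import Pool.Agent.H.MP_3a36cd_an.Final

/-! MP_3a36cd_an, Q1, positive answer: for every holomorphic vector field on `ℂ²`, if the union of
the parabolic leaves is not pluripolar, then every leaf is parabolic. -/

open Pool.Agent.ParLeaf

namespace Pool.Agent.Results.MP_3a36cd_an.ParabolicLeaves

/-- Let `P, Q` be entire functions on `ℂ²`. If the union of the parabolic leaves of the vector field
`P ∂_z + Q ∂_w` is not pluripolar, then every leaf is parabolic (the leaf through `p`, for every
point `p` outside the zero set). -/
theorem result : ∀ P Q : ℂ × ℂ → ℂ, Differentiable ℂ P → Differentiable ℂ Q →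
    ¬ Pluripolar (ParabolicSet P Q) → ∀ p : ℂ × ℂ, (P p, Q p) ≠ 0 → ParabolicAt P Q p :=
  fun _ _ hP hQ h p hp => Pool.Agent.ParLeaf.main hP hQ h p hp

end Pool.Agent.Results.MP_3a36cd_an.ParabolicLeaves
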